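import Mathlib
import Pool.Agent.H.MP_9638d9_co.C

set_option autoImplicit false

namespace Pool.Agent.Results.MP_9638d9_co.Dim3
open Pool.Agent.Lib.helper1 Pool.Agent.H.MP_9638d9_co

theorem result (n : ℕ) (K : Finset (Finset (Fin n))) (h : C.Mfd K) (e : Mask.NE K) :
    LC.IsLC 3 K :=
  C.lc h e

end Pool.Agent.Results.MP_9638d9_co.Dim3
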